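import Pool.Agent.H14.AVS.S3

set_option autoImplicit false

namespace Pool.AVS.POL

open Polynomial Matrix Pool.AVR Pool.AVS

variable {F : Type} [Field F]

lemma part1 (x : RatFunc F) (hx : ∀ P : F[X], P.Monic → Irreducible P → x ∈ IP P) :
    ∃ p : F[X], x = algebraMap F[X] (RatFunc F) p := by
  have hu : IsUnit x.denom := by
    by_contra h
    obtain ⟨P, hPm, hPi, hPd⟩ := Polynomial.exists_monic_irreducible_factor x.denom h
    exact hx P hPm hPi hPd
  have h1 : x.denom = 1 := (RatFunc.monic_denom x).eq_one_of_isUnit hu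
  refine ⟨x.num, ?_⟩
  conv_lhs => rw [← RatFunc.num_div_denom x, h1, map_one, div_one]

lemma part2 (P : F[X]) (hP : Irreducible P) (x y : RatFunc F) (hx : x ∈ IP P) (hy : y ∈ IP P) :
    x + y ∈ IP P ∧ x * y ∈ IP P ∧ -x ∈ IP P := by
  have hp : Prime P := hP.prime
  refine ⟨fun h => ?_, fun h => ?_, fun h => ?_⟩
  · rcases hp.dvd_or_dvd (h.trans (RatFunc.denom_add_dvd x y)) with h1 | h1
    · exact hx h1
    · exact hy h1
  · rcases hp.dvd_or_dvd (h.trans (RatFunc.denom_mul_dvd x y)) with h1 | h1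
    · exact hx h1
    · exact hy h1
  · apply hx
    refine h.trans ?_
    have e : (-x : RatFunc F) = algebraMap F[X] (RatFunc F) (-x.num) /
        algebraMap F[X] (RatFunc F) x.denom := by
      rw [map_neg, neg_div, RatFunc.num_div_denom]
    rw [e]
    exact RatFunc.denom_div_dvd _ _

lemma part3 (P p : F[X]) (hP : Irreducible P) : algebraMap F[X] (RatFunc F) p ∈ IP P ∧
    ∀ N : ℕ, (algebraMap F[X] (RatFunc F) p / algebraMap F[X] (RatFunc F) P ^ N ∈ IP P ↔
      P ^ N ∣ p) := by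
  have hp : Prime P := hP.prime
  have h0 : ∀ q : F[X], algebraMap F[X] (RatFunc F) q ∈ IP P := by
    intro q h
    rw [RatFunc.denom_algebraMap] at h
    exact hp.not_dvd_one h
  refine ⟨h0 p, fun N => ⟨fun h => ?_, ?_⟩⟩
  · set x := algebraMap F[X] (RatFunc F) p / algebraMap F[X] (RatFunc F) P ^ N with hx
    have hPN : algebraMap F[X] (RatFunc F) (P ^ N) ≠ 0 :=
      RatFunc.algebraMap_ne_zero (pow_ne_zero _ hP.ne_zero)
    have hd : algebraMap F[X] (RatFunc F) x.denom ≠ 0 :=
      RatFunc.algebraMap_ne_zero (RatFunc.denom_ne_zero x)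
    have e : x.num * P ^ N = p * x.denom := by
      apply RatFunc.algebraMap_injective F
      rw [map_mul, map_mul]
      have e1 : algebraMap F[X] (RatFunc F) x.num = x * algebraMap F[X] (RatFunc F) x.denom := by
        rw [eq_comm, ← eq_div_iff hd, RatFunc.num_div_denom]
      have e2 : algebraMap F[X] (RatFunc F) p = x * algebraMap F[X] (RatFunc F) (P ^ N) := by
        rw [hx, map_pow, div_mul_cancel₀]
        rw [← map_pow]
        exact hPN
      rw [e1, e2]
      ring
    have hcop : IsCoprime (P ^ N) x.denom :=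
      ((hP.coprime_iff_not_dvd).2 h).pow_left
    exact hcop.dvd_of_dvd_mul_right (Dvd.intro_left _ e)
  · rintro ⟨q, rfl⟩
    have e : algebraMap F[X] (RatFunc F) (P ^ N * q) / algebraMap F[X] (RatFunc F) P ^ N =
        algebraMap F[X] (RatFunc F) q := by
      rw [map_mul, map_pow, mul_div_cancel_left₀]
      rw [← map_pow]
      exact RatFunc.algebraMap_ne_zero (pow_ne_zero _ hP.ne_zero)
    rw [e]
    exact h0 q

lemma deg_X_zpow (k : ℤ) : ((RatFunc.X : RatFunc F) ^ k).intDegree = k := by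
  have hX : (RatFunc.X : RatFunc F) ≠ 0 := RatFunc.X_ne_zero
  have hn : ∀ n : ℕ, ((RatFunc.X : RatFunc F) ^ n).intDegree = n := by
    intro n
    induction n with
    | zero => simp
    | succ n ih =>
      rw [pow_succ, RatFunc.intDegree_mul (pow_ne_zero _ hX) hX, ih, RatFunc.intDegree_X]
      push_cast
      ring
  rcases Int.eq_nat_or_neg k with ⟨n, rfl | rfl⟩
  · rw [zpow_natCast, hn]
  · rw [_root_.zpow_neg, zpow_natCast, RatFunc.intDegree_inv, hn]

lemma Dm_inv (m : ℕ) : (Dm m : Matrix (Fin 3) (Fin 3) (RatFunc F))⁻¹ =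
    Matrix.diagonal fun i => (RatFunc.X : RatFunc F) ^ (-dd m i) := by
  apply Matrix.inv_eq_right_inv
  rw [Dm, Matrix.diagonal_mul_diagonal, ← Matrix.diagonal_one]
  congr 1
  funext i
  rw [← zpow_add₀ RatFunc.X_ne_zero]
  simp

lemma part4 (n m : ℕ) (B : Matrix (Fin 3) (Fin 3) F[X]) (hB : Bᵀ = B) :
    (Bd n m B ↔ MI (Iinf F) ((RatFunc.X : RatFunc F) ^ (-(2 * n : ℤ)) •
        ((Dm m)⁻¹ * B.map (algebraMap F[X] (RatFunc F)) * (Dm m)⁻¹))) := by
  have hX : (RatFunc.X : RatFunc F) ≠ 0 := RatFunc.X_ne_zero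
  set T : Matrix (Fin 3) (Fin 3) (RatFunc F) := (RatFunc.X : RatFunc F) ^ (-(2 * n : ℤ)) •
        ((Dm m)⁻¹ * B.map (algebraMap F[X] (RatFunc F)) * (Dm m)⁻¹) with hT
  have key : ∀ i j : Fin 3, (B i j ≠ 0 → ((B i j).natDegree : ℤ) ≤ 2 * n + dd m i + dd m j) ↔
      T i j ∈ Iinf F := by
    intro i j
    have e : T i j =
        (RatFunc.X : RatFunc F) ^ (-(2 * n : ℤ)) * ((RatFunc.X : RatFunc F) ^ (-dd m i) *
          algebraMap F[X] (RatFunc F) (B i j) * (RatFunc.X : RatFunc F) ^ (-dd m j)) := by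
      rw [hT, Matrix.smul_apply, smul_eq_mul, Dm_inv, Matrix.mul_diagonal, Matrix.diagonal_mul,
        Matrix.map_apply]
    rw [e]
    change _ ↔ RatFunc.intDegree _ ≤ 0
    by_cases h : B i j = 0
    · simp [h]
    · have h' : algebraMap F[X] (RatFunc F) (B i j) ≠ 0 := RatFunc.algebraMap_ne_zero h
      have z : ∀ k : ℤ, (RatFunc.X : RatFunc F) ^ k ≠ 0 := fun k => zpow_ne_zero _ hX
      rw [RatFunc.intDegree_mul (z _) (mul_ne_zero (mul_ne_zero (z _) h') (z _)),
        RatFunc.intDegree_mul (mul_ne_zero (z _) h') (z _), RatFunc.intDegree_mul (z _) h',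
        deg_X_zpow, deg_X_zpow, deg_X_zpow, RatFunc.intDegree_polynomial]
      constructor
      · intro h1
        have := h1 h
        linarith
      · intro h1 _
        linarith
  constructor
  · rintro ⟨_, h⟩ i j
    exact (key i j).1 (h i j)
  · intro h
    exact ⟨hB, fun i j => (key i j).2 (h i j)⟩

end Pool.AVS.POL

namespace Pool.AVS

open Polynomial Matrix Pool.AVR Pool.AVS.POL

theorem pol_thm : POLStmt := by
  intro F _
  exact ⟨part1, fun P hP x y hx hy => part2 P hP x y hx hy, fun P p hP => part3 P p hP,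
    fun n m B hB => part4 n m B hB⟩

end Pool.AVS
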