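import Pool.Agent.H14.AVS.S3

set_option autoImplicit false

namespace Pool.AVS.TRA

open Polynomial Matrix Pool.AVR Pool.AVS

variable {F : Type} [Field F] {I : Set (RatFunc F)} {ϖ : RatFunc F} {L : Type} [Field L]
  {O : ValuationSubring L} {ι : RatFunc F →+* L}

lemma ui_iff (hc : IsComp F I ϖ L O ι) (x : RatFunc F) : UI I x ↔ UI (O : Set L) (ι x) := by
  unfold UI
  rw [SetLike.mem_coe, SetLike.mem_coe, hc.mem, ← map_inv₀, hc.mem, _root_.map_ne_zero]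

lemma mi_iff (hc : IsComp F I ϖ L O ι) (g : Matrix (Fin 3) (Fin 3) (RatFunc F)) :
    MI I g ↔ MI (O : Set L) (g.map ι) := by
  unfold MI
  refine forall_congr' fun i => forall_congr' fun j => ?_
  rw [SetLike.mem_coe, Matrix.map_apply, hc.mem]

lemma det_mapI (g : Matrix (Fin 3) (Fin 3) (RatFunc F)) : (g.map ι).det = ι g.det := by
  rw [RingHom.map_det, RingHom.mapMatrix_apply]

lemma gi_iff (hc : IsComp F I ϖ L O ι) (g : Matrix (Fin 3) (Fin 3) (RatFunc F)) :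
    GI I g ↔ GI (O : Set L) (g.map ι) := by
  unfold GI
  rw [mi_iff hc, ui_iff hc, det_mapI]

lemma mulVec_map (g : Matrix (Fin 3) (Fin 3) (RatFunc F)) (z : Fin 3 → RatFunc F) (i : Fin 3) :
    ((g.map ι) *ᵥ (fun i => ι (z i))) i = ι ((g *ᵥ z) i) := by
  simp only [Matrix.mulVec, dotProduct, Matrix.map_apply, map_sum, map_mul]

lemma bil_map (g : Matrix (Fin 3) (Fin 3) (RatFunc F)) (z : Fin 3 → RatFunc F) :
    bil (g.map ι) (fun i => ι (z i)) (fun i => ι (z i)) = ι (bil g z z) := by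
  unfold bil
  simp only [dotProduct, mulVec_map, map_sum, map_mul]

lemma AA_map : (AA (RatFunc F)).map ι = AA L := by
  ext i j
  fin_cases i <;> fin_cases j <;> simp [AA]

lemma conj_map (g B : Matrix (Fin 3) (Fin 3) (RatFunc F)) :
    (g.map ι)ᵀ * (B.map ι) * (g.map ι) = (gᵀ * B * g).map ι := by
  rw [Matrix.map_mul, Matrix.map_mul, Matrix.transpose_map]

lemma sum_mem3 (a : Fin 3 → L) (h : ∀ i, a i ∈ O) : ∑ i, a i ∈ O := by
  exact sum_mem fun i _ => h i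

lemma smo_iff (hc : IsComp F I ϖ L O ι) (G B : Matrix (Fin 3) (Fin 3) (RatFunc F))
    (hG : MI I G) (z : Fin 3 → RatFunc F) (w : RatFunc F) :
    Smo I ϖ G B z w ↔ Smo (O : Set L) (ι ϖ) (G.map ι) (B.map ι) (fun i => ι (z i)) (ι w) := by
  have hpi : ι ϖ ≠ 0 := hc.loc.pi_ne
  have key : (∀ i, z i ∈ I) →
      ((∃ μ ∈ I, ∀ i, ((B *ᵥ z) i - μ * (G *ᵥ z) i) / ϖ ∈ I) ↔
      ∃ μ ∈ (O : Set L), ∀ i, (((B.map ι) *ᵥ fun i => ι (z i)) i -
        μ * ((G.map ι) *ᵥ fun i => ι (z i)) i) / ι ϖ ∈ (O : Set L)) := by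
    intro hz
    have hGz : ∀ i, ι ((G *ᵥ z) i) ∈ O := by
      intro i
      rw [Matrix.mulVec, dotProduct, map_sum]
      refine sum_mem3 _ fun j => ?_
      rw [map_mul]
      exact mul_mem ((hc.mem _).2 (hG i j)) ((hc.mem _).2 (hz j))
    constructor
    · rintro ⟨μ, hμ, h⟩
      refine ⟨ι μ, (hc.mem _).2 hμ, fun i => ?_⟩
      have h1 := (hc.mem _).2 (h i)
      rw [map_div₀, map_sub, map_mul] at h1
      rw [mulVec_map, mulVec_map]
      exact h1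
    · rintro ⟨μ, hμ, h⟩
      obtain ⟨x, hx⟩ := hc.dense μ 1
      rw [pow_one] at hx
      have hxO : ι x ∈ O := by
        have e : ι x = μ - (μ - ι x) / ι ϖ * ι ϖ := by field_simp; ring
        rw [e]
        exact sub_mem hμ (mul_mem hx hc.loc.pi_mem)
      refine ⟨x, (hc.mem _).1 hxO, fun i => ?_⟩
      rw [← hc.mem, map_div₀, map_sub, map_mul]
      have h1 := h i
      rw [mulVec_map, mulVec_map] at h1
      have e : (ι ((B *ᵥ z) i) - ι x * ι ((G *ᵥ z) i)) / ι ϖ =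
          (ι ((B *ᵥ z) i) - μ * ι ((G *ᵥ z) i)) / ι ϖ +
            (μ - ι x) / ι ϖ * ι ((G *ᵥ z) i) := by
        field_simp
        ring
      rw [e]
      exact add_mem h1 (mul_mem hx (hGz i))
  unfold Smo
  have e1 : (∀ i, z i ∈ I) ↔ ∀ i, ι (z i) ∈ (O : Set L) :=
    forall_congr' fun i => by rw [SetLike.mem_coe, hc.mem]
  have e2 : w ∈ I ↔ ι w ∈ (O : Set L) := by rw [SetLike.mem_coe, hc.mem]
  have e3 : (∃ i, z i / ϖ ∉ I) ↔ ∃ i, ι (z i) / ι ϖ ∉ (O : Set L) :=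
    exists_congr fun i => by rw [SetLike.mem_coe, ← map_div₀, hc.mem]
  have e4 : bil G z z / ϖ ∈ I ↔
      bil (G.map ι) (fun i => ι (z i)) (fun i => ι (z i)) / ι ϖ ∈ (O : Set L) := by
    rw [SetLike.mem_coe, bil_map, ← map_div₀, hc.mem]
  have e5 : (w ^ 2 + bil B z z) / ϖ ∈ I ↔
      (ι w ^ 2 + bil (B.map ι) (fun i => ι (z i)) (fun i => ι (z i))) / ι ϖ ∈ (O : Set L) := by
    rw [SetLike.mem_coe, bil_map, ← map_pow, ← map_add, ← map_div₀, hc.mem]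
  have e6 : w / ϖ ∈ I ↔ ι w / ι ϖ ∈ (O : Set L) := by
    rw [SetLike.mem_coe, ← map_div₀, hc.mem]
  constructor
  · rintro ⟨h1, h2, h3, h4, h5, h6⟩
    refine ⟨e1.1 h1, e2.1 h2, e3.1 h3, e4.1 h4, e5.1 h5, ?_⟩
    rintro ⟨h7, h8⟩
    exact h6 ⟨e6.2 h7, (key h1).2 h8⟩
  · rintro ⟨h1, h2, h3, h4, h5, h6⟩
    have h1' := e1.2 h1
    refine ⟨h1', e2.2 h2, e3.2 h3, e4.2 h4, e5.2 h5, ?_⟩
    rintro ⟨h7, h8⟩
    exact h6 ⟨e6.1 h7, (key h1').1 h8⟩

lemma exists_bound (hc : IsComp F I ϖ L O ι) (x : L) : ∃ N : ℕ, ∀ M : ℕ, N ≤ M →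
    x * ι ϖ ^ M / ι ϖ ∈ O := by
  have hpi : ι ϖ ≠ 0 := hc.loc.pi_ne
  by_cases hx : x = 0
  · exact ⟨0, fun M _ => by rw [hx]; simp⟩
  obtain ⟨n, hn, _⟩ := hc.loc.arch x hx
  refine ⟨n.natAbs + 1, fun M hM => ?_⟩
  have e : x * ι ϖ ^ M / ι ϖ = x / ι ϖ ^ n * ι ϖ ^ ((n + M - 1).toNat) := by
    have h0 : 0 ≤ n + M - 1 := by omega
    have e1 : (ι ϖ ^ ((n + M - 1).toNat) : L) = ι ϖ ^ n * ι ϖ ^ M / ι ϖ := by
      rw [← zpow_natCast, Int.toNat_of_nonneg h0, zpow_sub₀ hpi, zpow_add₀ hpi, zpow_one,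
        zpow_natCast]
    rw [e1]
    have : (ι ϖ ^ n : L) ≠ 0 := zpow_ne_zero _ hpi
    field_simp
  rw [e]
  exact mul_mem hn (pow_mem hc.loc.pi_mem _)

lemma eqv_iff (hc : IsComp F I ϖ L O ι) (g g' : Matrix (Fin 3) (Fin 3) (RatFunc F))
    (z z' : Fin 3 → RatFunc F) (w w' : RatFunc F) (hg : g.det ≠ 0) :
    Eqv I ϖ g z w g' z' w' ↔ Eqv (O : Set L) (ι ϖ) (g.map ι) (fun i => ι (z i)) (ι w)
        (g'.map ι) (fun i => ι (z' i)) (ι w') := by
  have hpi : ι ϖ ≠ 0 := hc.loc.pi_ne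
  constructor
  · rintro ⟨κ, hκ, hgg, t, ht, h1, h2⟩
    refine ⟨κ.map ι, (gi_iff hc κ).1 hκ, by rw [hgg, Matrix.map_mul], ι t, (ui_iff hc t).1 ht,
      fun i => ?_, ?_⟩
    · rw [mulVec_map, ← map_mul, ← map_sub, ← map_div₀]
      exact (hc.mem _).2 (h1 i)
    · rw [← map_mul, ← map_sub, ← map_div₀]
      exact (hc.mem _).2 h2
  · rintro ⟨κ, hκ, hgg, t, ht, h1, h2⟩
    have hu : IsUnit g.det := isUnit_iff_ne_zero.2 hg
    have hk : κ = (g⁻¹ * g').map ι := by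
      have e1 : (g⁻¹.map ι) * (g.map ι) = 1 := by
        rw [← Matrix.map_mul, Matrix.nonsing_inv_mul _ hu]
        exact Matrix.map_one _ (map_zero ι) (map_one ι)
      rw [Matrix.map_mul, hgg, ← Matrix.mul_assoc, e1, Matrix.one_mul]
    obtain ⟨N0, hN0⟩ := exists_bound hc (ι (z 0))
    obtain ⟨N1, hN1⟩ := exists_bound hc (ι (z 1))
    obtain ⟨N2, hN2⟩ := exists_bound hc (ι (z 2))
    obtain ⟨N3, hN3⟩ := exists_bound hc (ι w)
    obtain ⟨M, hM0, hM1, hM2, hM3, hM4⟩ : ∃ M : ℕ, N0 ≤ M ∧ N1 ≤ M ∧ N2 ≤ M ∧ N3 ≤ M ∧ 1 ≤ M :=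
      ⟨N0 + N1 + N2 + N3 + 1, by omega, by omega, by omega, by omega, by omega⟩
    have hz : ∀ i, ι (z i) * ι ϖ ^ M / ι ϖ ∈ O := by
      intro i
      fin_cases i
      · exact hN0 M hM0
      · exact hN1 M hM1
      · exact hN2 M hM2
    have hw := hN3 M hM3
    obtain ⟨x, hx⟩ := hc.dense t M
    obtain ⟨ht0, ht1, ht2⟩ := ht
    have hpM : (ι ϖ ^ M : L) ≠ 0 := pow_ne_zero _ hpi
    have hdiff : (t - ι x) / ι ϖ ∈ O := by
      have e : (t - ι x) / ι ϖ = (t - ι x) / ι ϖ ^ M * ι ϖ ^ (M - 1) := by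
        obtain ⟨M', rfl⟩ : ∃ M', M = M' + 1 := ⟨M - 1, by omega⟩
        rw [Nat.add_sub_cancel, pow_succ]
        have : (ι ϖ ^ M' : L) ≠ 0 := pow_ne_zero _ hpi
        field_simp
      rw [e]
      exact mul_mem hx (pow_mem hc.loc.pi_mem _)
    have hxO : ι x ∈ O := by
      have e : ι x = t - (t - ι x) / ι ϖ * ι ϖ := by field_simp; ring
      rw [e]
      exact sub_mem ht1 (mul_mem hdiff hc.loc.pi_mem)
    have htn : t / ι ϖ ∉ O := by
      intro h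
      exact ((hc.loc.unif t ht1 ht0).2 h) ht2
    have hxn : ι x / ι ϖ ∉ O := by
      intro h
      apply htn
      have e : t / ι ϖ = (t - ι x) / ι ϖ + ι x / ι ϖ := by ring
      rw [e]
      exact add_mem hdiff h
    have hx0 : ι x ≠ 0 := by
      intro h
      apply hxn
      rw [h]
      simp
    have hxi : (ι x)⁻¹ ∈ O := by
      by_contra h
      exact hxn ((hc.loc.unif _ hxO hx0).1 h)
    refine ⟨g⁻¹ * g', ?_, ?_, x, ?_, fun i => ?_, ?_⟩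
    · rw [gi_iff hc, ← hk]
      exact hκ
    · rw [← Matrix.mul_assoc, Matrix.mul_nonsing_inv _ hu, Matrix.one_mul]
    · rw [ui_iff hc]
      exact ⟨hx0, hxO, hxi⟩
    · rw [← hc.mem, map_div₀, map_sub, map_mul, ← mulVec_map, ← hk]
      have e : ((κ *ᵥ fun i => ι (z' i)) i - ι x * ι (z i)) / ι ϖ =
          ((κ *ᵥ fun i => ι (z' i)) i - t * ι (z i)) / ι ϖ +
            (t - ι x) / ι ϖ ^ M * (ι (z i) * ι ϖ ^ M / ι ϖ) := by
        field_simp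
        ring
      rw [e]
      exact add_mem (h1 i) (mul_mem hx (hz i))
    · rw [← hc.mem, map_div₀, map_sub, map_mul]
      have e : (ι w' - ι x * ι w) / ι ϖ =
          (ι w' - t * ι w) / ι ϖ +
            (t - ι x) / ι ϖ ^ M * (ι w * ι ϖ ^ M / ι ϖ) := by
        field_simp
        ring
      rw [e]
      exact add_mem h2 (mul_mem hx hw)

end Pool.AVS.TRA

namespace Pool.AVS

open Polynomial Matrix Pool.AVR Pool.AVS.TRA

theorem tra_thm : TRAStmt := by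
  intro F _ I ϖ L _ O ι hc
  refine ⟨fun B g z w => ?_, fun g g' z z' w w' hg => eqv_iff hc g g' z z' w w' hg⟩
  have e1 : (g.map ι)ᵀ * AA L * (g.map ι) = (gᵀ * AA (RatFunc F) * g).map ι := by
    rw [← conj_map, AA_map]
  have e2 : (g.map ι)ᵀ * (B.map ι) * (g.map ι) = (gᵀ * B * g).map ι := conj_map g B
  unfold KP
  rw [e1, e2, ← gi_iff hc, ← mi_iff hc, det_mapI, _root_.map_ne_zero]
  refine and_congr_right fun _ => and_congr_right fun h1 => and_congr_right fun _ => ?_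
  exact smo_iff hc _ _ h1.1 z w

end Pool.AVS
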